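import Pool.Agent.Y17.X.Cnt
import Pool.Agent.Y687.JQ.Stm

/-!
# The joint exact proportion for the discriminants of a given sign

`star m D` is the squarefree part of `m D`. For a finite set `F` of discriminants of the class all
the numbers `star m D`, `m ∈ F`, satisfy the criterion for the proportion `c2 ^ #F` of the `D`.
-/

set_option autoImplicit false
set_option linter.style.haveILetI false

open Finset Filter

namespace Pool.Agent.Y17.X

open Pool.Agent.Y687 (InertT)
open Pool.Agent.Z701 (Sp)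
open Pool.Agent.Y687.MQ (AdmD matD leg_iff)
open Pool.Agent.Y687.JQ (GdJ OkW S_JDEN)
open Pool.Agent.Y703.CQ (Gd Cl c2)

/-- the squarefree part of the product of two squarefree numbers -/
def star (m D : ℤ) : ℤ := m * D / (Int.gcd m D : ℤ) ^ 2

theorem star_eq {m : ℤ} (D : ℤ) (hm : m ≠ 0) : ∃ g a b : ℤ, 0 < g ∧ m = g * a ∧ D = g * b ∧
    IsCoprime a b ∧ star m D = a * b := by
  have hg : 0 < (Int.gcd m D : ℤ) := by
    have := Int.gcd_pos_of_ne_zero_left D hm
    exact_mod_cast this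
  obtain ⟨a, ha⟩ := Int.gcd_dvd_left m D
  obtain ⟨b, hb⟩ := Int.gcd_dvd_right m D
  refine ⟨Int.gcd m D, a, b, hg, ha, hb, ?_, ?_⟩
  · rw [Int.isCoprime_iff_gcd_eq_one]
    have h : Int.gcd ((Int.gcd m D : ℤ) * a) ((Int.gcd m D : ℤ) * b) =
        Int.gcd m D * Int.gcd a b := by
      rw [Int.gcd_mul_left, Int.natAbs_natCast]
    rw [← ha, ← hb] at h
    have h0 : 0 < Int.gcd m D := by exact_mod_cast hg
    have h2 : Int.gcd m D * 1 = Int.gcd m D * Int.gcd a b := by rw [mul_one]; exact h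
    exact (Nat.eq_of_mul_eq_mul_left h0 h2).symm
  · unfold star
    have e : m * D = a * b * (Int.gcd m D : ℤ) ^ 2 := by
      calc m * D = ((Int.gcd m D : ℤ) * a) * ((Int.gcd m D : ℤ) * b) :=
            congrArg₂ (· * ·) ha hb
        _ = _ := by ring
    rw [e]
    exact Int.mul_ediv_cancel _ (pow_ne_zero 2 hg.ne')

theorem mem_pf {D : ℤ} (hD : D ≠ 0) {p : ℕ} :
    p ∈ D.natAbs.primeFactors ↔ p.Prime ∧ (p : ℤ) ∣ D := by
  rw [Nat.mem_primeFactors, Int.natCast_dvd]
  constructor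
  · rintro ⟨h1, h2, -⟩
    exact ⟨h1, h2⟩
  · rintro ⟨h1, h2⟩
    exact ⟨h1, h2, Int.natAbs_ne_zero.2 hD⟩

theorem sq_not {g a : ℤ} (h : Squarefree (g * a)) {p : ℕ} (hp : p.Prime) (h1 : (p : ℤ) ∣ g) :
    ¬ (p : ℤ) ∣ a := by
  intro h2
  have h3 := h p (mul_dvd_mul h1 h2)
  rw [Int.isUnit_iff] at h3
  have := hp.two_le
  omega

/-- the class is closed -/
theorem star_adm {m D : ℤ} (hm : AdmD m) (hD : AdmD D) : AdmD (star m D) ∧
    (star m D).natAbs.primeFactors = symmDiff D.natAbs.primeFactors m.natAbs.primeFactors := by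
  classical
  have hm0 : m ≠ 0 := hm.1.ne_zero
  have hD0 : D ≠ 0 := hD.1.ne_zero
  obtain ⟨g, a, b, hg, h1, h2, hc, he⟩ := star_eq D hm0
  have hsm : Squarefree (g * a) := h1 ▸ hm.1
  have hsD : Squarefree (g * b) := h2 ▸ hD.1
  have hga : ∀ p : ℕ, p.Prime → (p : ℤ) ∣ g → ¬ (p : ℤ) ∣ a := fun p hp => sq_not hsm hp
  have hgb : ∀ p : ℕ, p.Prime → (p : ℤ) ∣ g → ¬ (p : ℤ) ∣ b := fun p hp => sq_not hsD hp
  have hab : ∀ p : ℕ, p.Prime → (p : ℤ) ∣ a → ¬ (p : ℤ) ∣ b := by
    intro p hp k1 k2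
    have k3 := hc.isUnit_of_dvd' k1 k2
    rw [Int.isUnit_iff] at k3
    have := hp.two_le
    omega
  have ha0 : a ≠ 0 := by
    rintro rfl
    rw [mul_zero] at h1
    exact hm0 h1
  have hb0 : b ≠ 0 := by
    rintro rfl
    rw [mul_zero] at h2
    exact hD0 h2
  have hab0 : a * b ≠ 0 := mul_ne_zero ha0 hb0
  rw [he]
  refine ⟨⟨?_, ?_, ?_, ?_⟩, ?_⟩
  · exact (squarefree_mul_iff).2 ⟨hc.isRelPrime, hsm.of_mul_right, hsD.of_mul_right⟩
  · have k1 := hm.2.1
    have k2 := hD.2.1
    rw [h1, Int.mul_emod] at k1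
    rw [h2, Int.mul_emod] at k2
    rw [Int.mul_emod]
    have e1 := Int.emod_nonneg g (show (4 : ℤ) ≠ 0 by norm_num)
    have e2 := Int.emod_lt_of_pos g (show (0 : ℤ) < 4 by norm_num)
    have e3 := Int.emod_nonneg a (show (4 : ℤ) ≠ 0 by norm_num)
    have e4 := Int.emod_lt_of_pos a (show (0 : ℤ) < 4 by norm_num)
    have e5 := Int.emod_nonneg b (show (4 : ℤ) ≠ 0 by norm_num)
    have e6 := Int.emod_lt_of_pos b (show (0 : ℤ) < 4 by norm_num)
    generalize g % 4 = x at *
    generalize a % 4 = y at *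
    generalize b % 4 = z at *
    interval_cases x <;> interval_cases y <;> interval_cases z <;> simp_all
  · have k1 := (leg_iff m).2 hm.2.2.1
    have k2 := (leg_iff D).2 hD.2.2.1
    rw [← leg_iff]
    rw [h1, legendreSym.mul] at k1
    rw [h2, legendreSym.mul] at k2
    rw [legendreSym.mul]
    have k3 : legendreSym 7 g * legendreSym 7 g = 1 := by
      have hg7 : ((g : ℤ) : ZMod 7) ≠ 0 := by
        intro h0
        have : legendreSym 7 g = 0 := (legendreSym.eq_zero_iff 7 g).2 h0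
        rw [this, zero_mul] at k1
        exact zero_ne_one k1
      rw [← sq]
      exact legendreSym.sq_one 7 hg7
    calc legendreSym 7 a * legendreSym 7 b =
        (legendreSym 7 g * legendreSym 7 g) * (legendreSym 7 a * legendreSym 7 b) := by
          rw [k3, one_mul]
      _ = (legendreSym 7 g * legendreSym 7 a) * (legendreSym 7 g * legendreSym 7 b) := by ring
      _ = 1 := by rw [k1, k2, one_mul]
  · intro p hp hd
    rcases (Nat.prime_iff_prime_int.1 hp).dvd_or_dvd hd with hd | hd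
    · exact hm.2.2.2 p hp (by rw [h1]; exact Dvd.dvd.mul_left hd g)
    · exact hD.2.2.2 p hp (by rw [h2]; exact Dvd.dvd.mul_left hd g)
  · ext p
    rw [Finset.mem_symmDiff, mem_pf hm0, mem_pf hD0, mem_pf hab0]
    by_cases hp : p.Prime
    · have hpi := Nat.prime_iff_prime_int.1 hp
      have k1 : (p : ℤ) ∣ m ↔ ((p : ℤ) ∣ g ∨ (p : ℤ) ∣ a) := by rw [h1]; exact hpi.dvd_mul
      have k2 : (p : ℤ) ∣ D ↔ ((p : ℤ) ∣ g ∨ (p : ℤ) ∣ b) := by rw [h2]; exact hpi.dvd_mul
      have k3 : (p : ℤ) ∣ a * b ↔ ((p : ℤ) ∣ a ∨ (p : ℤ) ∣ b) := hpi.dvd_mul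
      have k4 := hga p hp
      have k5 := hgb p hp
      have k6 := hab p hp
      constructor
      · rintro ⟨-, k⟩
        rcases k3.1 k with k | k
        · refine Or.inr ⟨⟨hp, k1.2 (Or.inr k)⟩, fun h => ?_⟩
          rcases k2.1 h.2 with h | h
          · exact k4 h k
          · exact k6 k h
        · refine Or.inl ⟨⟨hp, k2.2 (Or.inr k)⟩, fun h => ?_⟩
          rcases k1.1 h.2 with h | h
          · exact k5 h k
          · exact k6 h k
      · rintro (⟨⟨-, k⟩, h⟩ | ⟨⟨-, k⟩, h⟩)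
        · refine ⟨hp, k3.2 (Or.inr ?_)⟩
          rcases k2.1 k with k | k
          · exact absurd ⟨hp, k1.2 (Or.inl k)⟩ h
          · exact k
        · refine ⟨hp, k3.2 (Or.inl ?_)⟩
          rcases k1.1 k with k | k
          · exact absurd ⟨hp, k2.2 (Or.inl k)⟩ h
          · exact k
    · simp [hp]

theorem star_eq_one {m D : ℤ} (hm : AdmD m) (hD : AdmD D) (h : star m D = 1) : D = m := by
  have h1 := (star_adm hm hD).2
  rw [h] at h1
  have h2 : symmDiff D.natAbs.primeFactors m.natAbs.primeFactors = ∅ := by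
    rw [← h1]
    simp
  have h3 : D.natAbs.primeFactors = m.natAbs.primeFactors := symmDiff_eq_bot.1 h2
  have h4 : D.natAbs = m.natAbs := by
    rw [← Nat.prod_primeFactors_of_squarefree (Int.squarefree_natAbs.2 hD.1), h3,
      Nat.prod_primeFactors_of_squarefree (Int.squarefree_natAbs.2 hm.1)]
  have h5 := hm.2.1
  have h6 := hD.2.1
  rcases Int.natAbs_eq_natAbs_iff.1 h4 with e | e
  · exact e
  · omega

/-- two counts with bounded difference -/
theorem lim_of_close {A N B : ℕ → ℕ} {x : ℝ} (c : ℕ) (h1 : ∀ X, A X ≤ N X + c)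
    (h2 : ∀ X, N X ≤ A X + c) (hB : Tendsto B atTop atTop)
    (hN : Tendsto (fun X => (N X : ℝ) / (B X : ℝ)) atTop (nhds x)) :
    Tendsto (fun X => (A X : ℝ) / (B X : ℝ)) atTop (nhds x) := by
  have hBR : Tendsto (fun X => (B X : ℝ)) atTop atTop := tendsto_natCast_atTop_atTop.comp hB
  have h4 : ∀ X, |(A X : ℝ) - (N X : ℝ)| ≤ c := by
    intro X
    rw [abs_le]
    constructor
    · have : ((N X : ℕ) : ℝ) ≤ (A X : ℝ) + c := by exact_mod_cast h2 X
      linarith
    · have : ((A X : ℕ) : ℝ) ≤ (N X : ℝ) + c := by exact_mod_cast h1 X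
      linarith
  have h5 : Tendsto (fun X => ((A X : ℝ) - (N X : ℝ)) / (B X : ℝ)) atTop (nhds 0) := by
    refine squeeze_zero_norm (a := fun X => (c : ℝ) / (B X : ℝ)) (fun X => ?_) ?_
    · rw [norm_div, Real.norm_eq_abs, Real.norm_eq_abs, abs_of_nonneg (show (0 : ℝ) ≤ (B X : ℝ) from Nat.cast_nonneg (B X))]
      exact div_le_div_of_nonneg_right (h4 X) (Nat.cast_nonneg _)
    · exact tendsto_const_nhds.div_atTop hBR
  have h6 := hN.add h5
  rw [add_zero] at h6
  refine h6.congr fun X => ?_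
  rw [← add_div]
  congr 1
  ring

theorem natAbs_smul {s : ℤ} (hs : s = 1 ∨ s = -1) (n : ℕ) : (s * (n : ℤ)).natAbs = n := by
  rcases hs with rfl | rfl
  · simp
  · simp

open Classical in
/-- translation of a proportion, up to finitely many exceptions -/
theorem lim_gen {s : ℤ} (hs : s = 1 ∨ s = -1) (Q : ℤ → Prop) (G : Finset ℕ → Prop) {x : ℝ}
    (Ex : Finset ℕ)
    (hlim : Tendsto (fun X : ℕ => (((Icc 1 X).filter fun D => Squarefree D ∧
        Cl {3, 5} (KK s) D.primeFactors ∧ G D.primeFactors).card : ℝ) /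
      (((Icc 1 X).filter fun D => Squarefree D ∧ Cl {3, 5} (KK s) D.primeFactors).card : ℝ))
      atTop (nhds x))
    (h : ∀ n : ℕ, 1 ≤ n → Squarefree n → Cl {3, 5} (KK s) n.primeFactors → n ∉ Ex →
      (Q (s * n) ↔ G n.primeFactors)) :
    Tendsto (fun X : ℕ => (count (fun D => AdmD D ∧ 0 < s * D ∧ Q D) X : ℝ) /
      (count (fun D => AdmD D ∧ 0 < s * D) X : ℝ)) atTop (nhds x) := by
  have hB := card_atTop hs
  set B : ℕ → ℕ := fun X => ((Icc 1 X).filter fun n : ℕ => Squarefree n ∧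
    Cl {3, 5} (KK s) n.primeFactors).card with hBd
  set N : ℕ → ℕ := fun X => ((Icc 1 X).filter fun n : ℕ => Squarefree n ∧
    Cl {3, 5} (KK s) n.primeFactors ∧ G n.primeFactors).card with hNd
  have h1 : ∀ X, count (fun D => AdmD D ∧ 0 < s * D) X = B X := by
    intro X
    have := count_eq hs (fun _ => True) X
    simp only [and_true] at this
    exact this
  have h2 : ∀ X, count (fun D => AdmD D ∧ 0 < s * D ∧ Q D) X =
      ((Icc 1 X).filter fun n : ℕ => Squarefree n ∧ Cl {3, 5} (KK s) n.primeFactors ∧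
        Q (s * n)).card := fun X => count_eq hs Q X
  have h4 : ∀ X, ((Icc 1 X).filter fun n : ℕ => Squarefree n ∧ Cl {3, 5} (KK s) n.primeFactors ∧
      Q (s * n)).card ≤ N X + Ex.card := by
    intro X
    refine le_trans (Finset.card_le_card ?_) (Finset.card_union_le _ _)
    intro n hn
    obtain ⟨k1, k2, k3, k4⟩ := Finset.mem_filter.1 hn
    by_cases hn1 : n ∈ Ex
    · exact Finset.mem_union_right _ hn1
    · exact Finset.mem_union_left _ (Finset.mem_filter.2 ⟨k1, k2, k3,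
        (h n (Finset.mem_Icc.1 k1).1 k2 k3 hn1).1 k4⟩)
  have h5 : ∀ X, N X ≤ ((Icc 1 X).filter fun n : ℕ => Squarefree n ∧
      Cl {3, 5} (KK s) n.primeFactors ∧ Q (s * n)).card + Ex.card := by
    intro X
    refine le_trans (Finset.card_le_card ?_) (Finset.card_union_le _ _)
    intro n hn
    obtain ⟨k1, k2, k3, k4⟩ := Finset.mem_filter.1 hn
    by_cases hn1 : n ∈ Ex
    · exact Finset.mem_union_right _ hn1
    · exact Finset.mem_union_left _ (Finset.mem_filter.2 ⟨k1, k2, k3,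
        (h n (Finset.mem_Icc.1 k1).1 k2 k3 hn1).2 k4⟩)
  have h6 := lim_of_close Ex.card h4 h5 hB hlim
  refine h6.congr fun X => ?_
  rw [h1 X, h2 X]

/-- **the joint exact proportion** -/
theorem joint_of (hJ : S_JDEN) {s : ℤ} (hs : s = 1 ∨ s = -1) (F : Finset ℤ)
    (hF : ∀ m ∈ F, AdmD m) (Q : ℤ → Prop)
    (hQ : ∀ D : ℤ, AdmD D → D ≠ 1 → (Q D ↔ (matD D).det ≠ 0)) :
    Tendsto (fun X : ℕ => (count (fun D => AdmD D ∧ 0 < s * D ∧ ∀ m ∈ F, Q (star m D)) X : ℝ) /
      (count (fun D => AdmD D ∧ 0 < s * D) X : ℝ)) atTop (nhds (c2 ^ F.card)) := by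
  classical
  set V : ℤ → Finset ℕ := fun m => m.natAbs.primeFactors with hV
  have hinj : Set.InjOn V F := by
    intro m hm m' hm' h
    have hm1 := hF m hm
    have hm2 := hF m' hm'
    have h4 : m.natAbs = m'.natAbs := by
      rw [← Nat.prod_primeFactors_of_squarefree (Int.squarefree_natAbs.2 hm1.1)]
      rw [← Nat.prod_primeFactors_of_squarefree (Int.squarefree_natAbs.2 hm2.1)]
      exact congrArg (fun T : Finset ℕ => ∏ q ∈ T, q) h
    have h5 := hm1.2.1
    have h6 := hm2.2.1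
    rcases Int.natAbs_eq_natAbs_iff.1 h4 with e | e
    · exact e
    · omega
  have hcard : (F.image V).card = F.card := Finset.card_image_of_injOn hinj
  have hOk : OkW (F.biUnion V) (F.image V) := by
    constructor
    · intro u hu
      obtain ⟨m, hm, hu⟩ := Finset.mem_biUnion.1 hu
      have hm1 := hF m hm
      obtain ⟨k1, k2⟩ := (mem_pf hm1.1.ne_zero).1 hu
      have k3 := (hm1.2.2.2 u k1 k2).2
      refine ⟨k1, ?_, ?_⟩
      · rintro rfl
        rcases k3 with k3 | k3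
        · exact absurd k3.2.1 (by norm_num)
        · exact absurd k3.2.1 (by norm_num)
      · rintro rfl
        rcases k3 with k3 | k3
        · exact absurd k3.2.1 (by norm_num)
        · exact absurd k3.2.1 (by norm_num)
    · intro U hU
      obtain ⟨m, hm, rfl⟩ := Finset.mem_image.1 hU
      exact Finset.subset_biUnion_of_mem V hm
  have hD := hJ {3, 5} (KK s) fD (F.biUnion V) (F.image V) (ok_KK hs) hOk
  rw [hcard] at hD
  refine lim_gen hs (fun D => ∀ m ∈ F, Q (star m D)) (GdJ fD (F.image V))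
    (F.image Int.natAbs) hD ?_
  intro n hn k1 k2 k3
  have k4 := (adm_iff hs hn).2 ⟨k1, k2⟩
  have k5 : ∀ m ∈ F, (Q (star m (s * n)) ↔ Gd fD (symmDiff n.primeFactors (V m))) := by
    intro m hm
    obtain ⟨k6, k7⟩ := star_adm (hF m hm) k4
    rw [natAbs_smul hs] at k7
    rw [hQ _ k6 fun h => ?_, ← gd_iff k6, k7]
    have h8 := star_eq_one (hF m hm) k4 h
    refine k3 (Finset.mem_image.2 ⟨m, hm, ?_⟩)
    rw [← h8, natAbs_smul hs]
  unfold GdJ
  simp only [Finset.mem_image, forall_exists_index, and_imp, forall_apply_eq_imp_iff₂]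
  exact forall_congr' fun m => forall_congr' fun hm => k5 m hm

theorem count_split (Q R : ℤ → Prop) (X : ℕ) :
    count (fun D => Q D ∧ R D) X + count (fun D => Q D ∧ ¬ R D) X = count Q X := by
  have hfin : ∀ P : ℤ → Prop, {D : ℤ | |D| ≤ X ∧ P D}.Finite := fun P =>
    (Set.finite_Icc (-(X : ℤ)) X).subset fun D hD => abs_le.1 hD.1
  have hc : ∀ P : ℤ → Prop, count P X = {D : ℤ | |D| ≤ X ∧ P D}.ncard := fun P => rfl
  rw [hc, hc, hc, ← Set.ncard_union_eq ?_ (hfin _) (hfin _)]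
  · congr 1
    ext D
    simp only [Set.mem_union, Set.mem_ofPred_eq]
    tauto
  · rw [Set.disjoint_left]
    rintro D ⟨-, -, h1⟩ ⟨-, -, h2⟩
    exact h2 h1

/-- **the joint distribution**: the events are asymptotically independent -/
theorem pattern_of (hJ : S_JDEN) {s : ℤ} (hs : s = 1 ∨ s = -1) (Q : ℤ → Prop)
    (hQ : ∀ D : ℤ, AdmD D → D ≠ 1 → (Q D ↔ (matD D).det ≠ 0)) (K : Finset ℤ) :
    (∀ m ∈ K, AdmD m) → ∀ G : Finset ℤ, (∀ m ∈ G, AdmD m) → Disjoint G K →
    Tendsto (fun X : ℕ => (count (fun D => AdmD D ∧ 0 < s * D ∧ (∀ m ∈ G, Q (star m D)) ∧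
      ∀ m ∈ K, ¬ Q (star m D)) X : ℝ) / (count (fun D => AdmD D ∧ 0 < s * D) X : ℝ)) atTop
      (nhds (c2 ^ G.card * (1 - c2) ^ K.card)) := by
  classical
  induction K using Finset.induction_on with
  | empty =>
    intro _ G hG _
    have h := joint_of hJ hs G hG Q hQ
    rw [Finset.card_empty, pow_zero, mul_one]
    refine h.congr fun X => ?_
    congr 3
    funext D
    simp
  | insert m K hm ih =>
    intro hK G hG hd
    have hK' : ∀ a ∈ K, AdmD a := fun a ha => hK a (Finset.mem_insert_of_mem ha)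
    have hmA : AdmD m := hK m (Finset.mem_insert_self m K)
    have hmG : m ∉ G := fun h => Finset.disjoint_left.1 hd h (Finset.mem_insert_self m K)
    have hd1 : Disjoint G K := hd.mono_right (Finset.subset_insert m K)
    have hd2 : Disjoint (insert m G) K := Finset.disjoint_insert_left.2 ⟨hm, hd1⟩
    have h1 := ih hK' G hG hd1
    have h2 := ih hK' (insert m G) (fun a ha => by
      rcases Finset.mem_insert.1 ha with rfl | ha
      · exact hmA
      · exact hG a ha) hd2
    have h3 := h1.sub h2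
    rw [Finset.card_insert_of_notMem hmG] at h3
    rw [Finset.card_insert_of_notMem hm]
    have e : c2 ^ G.card * (1 - c2) ^ (K.card + 1) =
        c2 ^ G.card * (1 - c2) ^ K.card - c2 ^ (G.card + 1) * (1 - c2) ^ K.card := by ring
    rw [e]
    refine h3.congr fun X => ?_
    rw [← sub_div]
    congr 1
    have h4 := count_split (fun D => AdmD D ∧ 0 < s * D ∧ (∀ m ∈ G, Q (star m D)) ∧
      ∀ m ∈ K, ¬ Q (star m D)) (fun D => Q (star m D)) X
    have h5 : (fun D => (AdmD D ∧ 0 < s * D ∧ (∀ m ∈ G, Q (star m D)) ∧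
        ∀ m ∈ K, ¬ Q (star m D)) ∧ Q (star m D)) =
        fun D => AdmD D ∧ 0 < s * D ∧ (∀ a ∈ insert m G, Q (star a D)) ∧
          ∀ a ∈ K, ¬ Q (star a D) := by
      funext D
      rw [Finset.forall_mem_insert]
      refine propext ?_
      tauto
    have h6 : (fun D => (AdmD D ∧ 0 < s * D ∧ (∀ m ∈ G, Q (star m D)) ∧
        ∀ m ∈ K, ¬ Q (star m D)) ∧ ¬ Q (star m D)) =
        fun D => AdmD D ∧ 0 < s * D ∧ (∀ a ∈ G, Q (star a D)) ∧
          ∀ a ∈ insert m K, ¬ Q (star a D) := by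
      funext D
      rw [Finset.forall_mem_insert]
      refine propext ?_
      tauto
    rw [h5, h6] at h4
    rw [← h4]
    push_cast
    ring

end Pool.Agent.Y17.X
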