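import Pool.Agent.Z705.Fin2
import Pool.Agent.Z705.Cnt
import Pool.Agent.Y687.MQ.Disc
import Pool.Agent.Y809.BSD14.Tam3
import Pool.Agent.Y809.BSD14.Selb
import Pool.Agent.Y248.BSD14.Omega
import Pool.Agent.Y814.BSD14.SEL
import Pool.Agent.Y641.BSD14.T2
import Pool.Agent.Y641.BSD14.T7

/-!
# The exact `2`-part of the formula for the discriminants of the class

`TwoP W`: `E(ℚ)` is finite, `Ш(E/ℚ)[2^∞] = 0`, `L(E, 1) ≠ 0`, and
`L(E, 1) #E(ℚ)_tors² / (Ω ∏ c_l)` is a rational number which is a `2`-adic unit.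
-/

set_option autoImplicit false

open Finset

namespace Pool.Agent.Y17.X

open Pool.Agent
open Pool.Agent.W97.MT (IsGloballyMinimal)
open Pool.Agent.Y700 (WM Omega tamProd IsL EQ)
open Pool.Agent.Y687.MQ (AdmD matD of_admD SP IP disc matD_eq matT_iff det_ind)

/-- the exact `2`-part of the formula at the central point -/
def TwoP (W : WeierstrassCurve ℤ) : Prop :=
  IsGloballyMinimal W ∧ Finite (EQ W).toAffine.Point ∧
  (∀ (n : ℕ) (x : Pool.Agent.TH841.SH.D.Sha (EQ W)), 2 ^ n • x = 0 → x = 0) ∧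
  (∃ f, IsL W f) ∧ ∀ f, IsL W f → f 1 ≠ 0 ∧ ∃ w : ℚ, w ≠ 0 ∧ padicValRat 2 w = 0 ∧
    f 1 = (((w : ℝ) * (Omega W * tamProd W /
      (Nat.card (AddCommGroup.torsion (EQ W).toAffine.Point) : ℝ) ^ 2) : ℝ) : ℂ)

/-- for every `D ≠ 1` of the class the exact `2`-part holds with `Ш[2^∞] = 0` if and only if the
matrix is nonsingular -/
theorem twoP_iff {D : ℤ} (h : AdmD D) (h1 : D ≠ 1) : TwoP (WM D) ↔ (matD D).det ≠ 0 := by
  classical
  obtain ⟨hP, hT, hC, hD⟩ := of_admD h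
  have hP' : ∀ p ∈ SP D, Y17.N.Sp p := hP
  have hne : (SP D ∪ IP D).Nonempty := by
    rw [Finset.nonempty_iff_ne_empty]
    intro he
    obtain ⟨e1, e2⟩ := Finset.union_eq_empty.1 he
    apply h1
    rw [← hD, e1, e2]
    unfold disc Y687.DD Z700.pr
    simp
  have hm : Y687.DD (IP D) = (Z700.pr (IP D) : ℤ) ∨ Y687.DD (IP D) = -(Z700.pr (IP D) : ℤ) := by
    rw [Z705.DD_eq]
    rcases Nat.even_or_odd ((IP D).filter fun q => ¬ q % 4 = 1).card with he | ho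
    · left; rw [he.neg_one_pow, one_mul]
    · right; rw [ho.neg_one_pow, neg_one_mul]
  have hdet : (matD D).det ≠ 0 ↔ Odd (Z700.Yd Z700.lres (Y687.N.xrZ (Y687.DD (IP D))) (SP D)) := by
    rw [matD_eq, matT_iff hP hT, det_ind hP hT hm]
  have hsgn : Z705.Sgn (IP D) := ⟨hC.2, fun h3 => absurd h3 hC.1⟩
  have hWD : WM D = WM ((Z700.pr (SP D) : ℤ) * Y687.DD (IP D)) := by
    conv_lhs => rw [← hD]
    rfl
  have hEq : (Finite (EQ (WM D)).toAffine.Point ∧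
      ∀ x : Pool.Agent.TH841.SH.D.Sha (EQ (WM D)), x + x = 0 → x = 0) ↔
      Odd (Z700.Yd Z700.lres (Y687.N.xrZ (Y687.DD (IP D))) (SP D)) := by
    rw [hWD]
    exact (Z704.equiv Z702.f_COC Z702.f_LOT Z702.f_COB Z702.f_TOR Z702.f_LQ Z702.f_LG
      Z702.f_LP Z702.f_LIN Z702.f_TRN Z705.f_SELA Z705.f_SELB (Z705.cnd hP' hT)).symm
  rw [hdet]
  constructor
  · rintro ⟨-, h2, h3, -⟩
    refine hEq.1 ⟨h2, fun x hx => h3 1 x ?_⟩
    rw [pow_one, two_nsmul]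
    exact hx
  · intro hY
    obtain ⟨c1, c2, y, c3, c4⟩ := Z705.full_both Z702.f_COC Z702.f_LOT Z702.f_COB Z702.f_TOR
      Z702.f_LQ Z702.f_LG Z702.f_LP Z702.f_LIN Z702.f_TRN Z702.f_TORS Z705.f_SELA Z705.f_SELB
      Pool.Agent.Y809.BSD14.t_E0 Pool.Agent.Y809.BSD14.t_TIN
      Pool.Agent.Y809.BSD14.t_TSP Pool.Agent.Y641.BSD14.t2 Pool.Agent.Y641.BSD14.t7
      Pool.Agent.Y248.BSD14.t Pool.Agent.Y814.BSD14.t_MIN Z705.f_OMEGA Z705.f_VAL Z705.f_TAM
      Z700.f_SYM Z705.f_DIAG Z705.f_IND Y17.N.f_BIL Y17.N.f_T8 Z705.f_IND3G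
      Z705.f_INDQG hP' hT hne hsgn _ rfl
    rw [← hWD] at c1 c2 c3 c4
    have hA := hEq.2 hY
    have hy : Odd y := c3.2 hA
    have hy0 : y ≠ 0 := by
      rintro rfl
      exact absurd hy (by decide)
    refine ⟨c1, hA.1, ?_, c2, fun f hf => ⟨(c4 f hf).1 hy0, ?_⟩⟩
    · rw [hWD]
      exact Z705.sha_inf Z705.f_SELA Z705.f_SELB (Z705.cnd hP' hT) hY
    · obtain ⟨w, w1, w2, w3⟩ := (c4 f hf).2
      have hy2 : padicValRat 2 ((y : ℚ)) = 0 := by
        rw [padicValRat.of_int]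
        have : padicValInt 2 y = 0 := by
          refine padicValInt.eq_zero_of_not_dvd ?_
          intro hd
          have h5 := Int.odd_iff.1 hy
          omega
        rw [this]
        rfl
      have hyq : (y : ℚ) ≠ 0 := by exact_mod_cast hy0
      refine ⟨w * (y : ℚ) ^ 2, mul_ne_zero w1 (pow_ne_zero 2 hyq), ?_, ?_⟩
      · have : Fact (Nat.Prime 2) := ⟨Nat.prime_two⟩
        rw [padicValRat.mul w1 (pow_ne_zero 2 hyq), padicValRat.pow, w2, hy2]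
        simp
      · rw [w3]
        push_cast
        ring

/-- the algebraic side alone implies the exact `2`-part -/
theorem twoP_of {D : ℤ} (h : AdmD D) (h1 : D ≠ 1) (hf : Finite (EQ (WM D)).toAffine.Point)
    (hs : ∀ x : Pool.Agent.TH841.SH.D.Sha (EQ (WM D)), 2 • x = 0 → x = 0) : TwoP (WM D) := by
  refine (twoP_iff h h1).2 ?_
  classical
  obtain ⟨hP, hT, hC, hD⟩ := of_admD h
  have hP' : ∀ p ∈ SP D, Y17.N.Sp p := hP
  have hm : Y687.DD (IP D) = (Z700.pr (IP D) : ℤ) ∨ Y687.DD (IP D) = -(Z700.pr (IP D) : ℤ) := by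
    rw [Z705.DD_eq]
    rcases Nat.even_or_odd ((IP D).filter fun q => ¬ q % 4 = 1).card with he | ho
    · left; rw [he.neg_one_pow, one_mul]
    · right; rw [ho.neg_one_pow, neg_one_mul]
  have hdet : (matD D).det ≠ 0 ↔ Odd (Z700.Yd Z700.lres (Y687.N.xrZ (Y687.DD (IP D))) (SP D)) := by
    rw [matD_eq, matT_iff hP hT, det_ind hP hT hm]
  have hWD : WM D = WM ((Z700.pr (SP D) : ℤ) * Y687.DD (IP D)) := by
    conv_lhs => rw [← hD]
    rfl
  rw [hdet]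
  rw [hWD] at hf hs
  refine (Z704.equiv Z702.f_COC Z702.f_LOT Z702.f_COB Z702.f_TOR Z702.f_LQ Z702.f_LG
      Z702.f_LP Z702.f_LIN Z702.f_TRN Z705.f_SELA Z705.f_SELB (Z705.cnd hP' hT)).2
      ⟨hf, fun x hx => hs x ?_⟩
  rw [two_nsmul]
  exact hx

end Pool.Agent.Y17.X
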