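import Pool.Agent.TH841.SH.Tr
import Pool.Agent.TH841.SH.Grp
import Pool.Agent.Y668.CP
import Pool.Agent.Z702.Main

/-!
# The `2 ^ ∞`-Selmer group of an elliptic curve over `ℚ`

`Sel_{2 ^ ∞}(W) = ker (H¹(ℚ, W[2 ^ ∞]) → ∏ H¹(ℚ_v, W))`, with continuous cocycles of the absolute Galois
group. It is zero if and only if `W(ℚ)` is finite and `Ш(W)[2] = 0`. (The definitions and the lemma
`two_prim` are those of `Pool/Agent/Y667/BK`.)
-/

set_option autoImplicit false

namespace Pool.Agent.Y17.X.SI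

open WeierstrassCurve Pool.Agent.TH841.SH.D

section

variable {k : Type} [Field k]

/-- the points over the algebraic closure -/
abbrev PC (W : WeierstrassCurve k) : Type := Pt W (AlgebraicClosure k)

/-- the curve over the algebraic closure -/
noncomputable abbrev BC (W : WeierstrassCurve k) : WeierstrassCurve (AlgebraicClosure k) :=
  W.baseChange (AlgebraicClosure k)

/-- the action of the Galois group -/
noncomputable def ga (W : WeierstrassCurve k) (σ : Gal k) : PC W →+ PC W := act W σ.toAlgHom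

/-- the coboundary of a point -/
noncomputable def cb (W : WeierstrassCurve k) (Q : PC W) : Coch W :=
  fun σ => ga W σ Q - Q

/-- the values of `f` have 2-power order -/
def IsTor2 (W : WeierstrassCurve k) (f : Coch W) : Prop := ∀ σ, ∃ m : ℕ, (2 ^ m : ℕ) • f σ = 0

/-- `f` is the coboundary of a point of 2-power order -/
def IsCobInf (W : WeierstrassCurve k) (f : Coch W) : Prop :=
  ∃ P : Pt W (AlgebraicClosure k), (∃ m : ℕ, (2 ^ m : ℕ) • P = 0) ∧
    ∀ σ : Gal k, f σ = act W σ.toAlgHom P - P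

lemma tor_add {A : Type} [AddCommGroup A] {x y : A} (hx : ∃ m : ℕ, (2 ^ m : ℕ) • x = 0)
    (hy : ∃ m : ℕ, (2 ^ m : ℕ) • y = 0) : ∃ m : ℕ, (2 ^ m : ℕ) • (x + y) = 0 := by
  obtain ⟨m, hm⟩ := hx
  obtain ⟨l, hl⟩ := hy
  refine ⟨m + l, ?_⟩
  rw [smul_add, pow_add, mul_comm, mul_smul, hm, smul_zero, mul_comm, mul_smul, hl, smul_zero,
    add_zero]

lemma tor_neg {A : Type} [AddCommGroup A] {x : A} (hx : ∃ m : ℕ, (2 ^ m : ℕ) • x = 0) :
    ∃ m : ℕ, (2 ^ m : ℕ) • (-x) = 0 := by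
  obtain ⟨m, hm⟩ := hx
  exact ⟨m, by rw [smul_neg, hm, neg_zero]⟩

/-- the group of the coboundaries of the points of 2-power order -/
def cobInf (W : WeierstrassCurve k) : AddSubgroup (Coch W) where
  carrier := {f | IsCobInf W f}
  zero_mem' := ⟨0, ⟨0, smul_zero _⟩, fun σ => by
    change (0 : Pt W (AlgebraicClosure k)) = act W σ.toAlgHom 0 - 0
    rw [map_zero, sub_zero]⟩
  add_mem' := by
    rintro f g ⟨P, hP1, hP2⟩ ⟨Q, hQ1, hQ2⟩
    refine ⟨P + Q, tor_add hP1 hQ1, fun σ => ?_⟩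
    change f σ + g σ = _
    rw [hP2, hQ2, map_add]
    abel
  neg_mem' := by
    rintro f ⟨P, hP1, hP2⟩
    refine ⟨-P, tor_neg hP1, fun σ => ?_⟩
    change -f σ = _
    rw [hP2, map_neg]
    abel

end

/-- `f` is a continuous cocycle with values in the points of 2-power order whose classes in
`H¹(ℚ_v, W)` are trivial for all the places `v` -/
def IsSelInf (W : WeierstrassCurve ℚ) (f : Coch W) : Prop := IsShaCoc W f ∧ IsTor2 W f

/-- the group of the Selmer cocycles -/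
def selInfCoc (W : WeierstrassCurve ℚ) : AddSubgroup (Coch W) where
  carrier := {f | IsSelInf W f}
  zero_mem' := ⟨sha_zero W, fun _ => ⟨0, smul_zero _⟩⟩
  add_mem' := fun ⟨a1, a2⟩ ⟨b1, b2⟩ => ⟨sha_add a1 b1, fun σ => tor_add (a2 σ) (b2 σ)⟩
  neg_mem' := fun ⟨a1, a2⟩ => ⟨sha_neg a1, fun σ => tor_neg (a2 σ)⟩

/-- the `2 ^ ∞`-Selmer group `ker (H¹(ℚ, W[2 ^ ∞]) → ∏ H¹(ℚ_v, W))` -/
def SelInf (W : WeierstrassCurve ℚ) : Type := selInfCoc W ⧸ (cobInf W).addSubgroupOf (selInfCoc W)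

/-- the group law -/
noncomputable instance SelInf.group (W : WeierstrassCurve ℚ) : AddCommGroup (SelInf W) :=
  @QuotientAddGroup.Quotient.addCommGroup (selInfCoc W) _ ((cobInf W).addSubgroupOf (selInfCoc W))

section abs

variable {A G : Type} [AddCommGroup A] (a : G → A →+ A)

/-- the fixed points -/
def Fix : AddSubgroup A where
  carrier := {P | ∀ σ, a σ P = P}
  zero_mem' := fun σ => map_zero _
  add_mem' := fun {x y} hx hy σ => by rw [map_add, hx σ, hy σ]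
  neg_mem' := fun {x} hx σ => by rw [map_neg, hx σ]

lemma two_prim [Finite (Fix a)] (c : G → A) (K : ℕ) (hK : ∀ σ, (2 ^ K : ℕ) • c σ = 0)
    (hcob : ∃ P, ∀ σ, c σ = a σ P - P) :
    ∃ P, (∃ m : ℕ, (2 ^ m : ℕ) • P = 0) ∧ ∀ σ, c σ = a σ P - P := by
  obtain ⟨P0, hP0⟩ := hcob
  obtain ⟨N, hN⟩ : ∃ N : ℕ, N = Nat.card (Fix a) := ⟨_, rfl⟩
  have hN0 : N ≠ 0 := by
    rw [hN]
    exact Nat.card_pos.ne'
  obtain ⟨v, N', hodd, hNv⟩ := Nat.exists_eq_two_pow_mul_odd hN0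
  have hcop : Nat.Coprime (2 ^ K) N' := by
    apply Nat.Coprime.pow_left
    exact (Nat.coprime_two_left).2 hodd
  obtain ⟨u, hu1, hu2⟩ := Nat.chineseRemainder hcop 1 0
  have hQ : (2 ^ K : ℕ) • P0 ∈ Fix a := by
    intro σ
    rw [map_nsmul, ← sub_eq_zero, ← nsmul_sub, ← hP0, hK]
  have hNQ : N • ((2 ^ K : ℕ) • P0) = 0 := by
    have h1 : N • (⟨_, hQ⟩ : Fix a) = 0 := by
      rw [hN]
      exact card_nsmul_eq_zero'
    exact congrArg Subtype.val h1
  have hcu : ∀ σ, u • c σ = c σ := by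
    intro σ
    obtain ⟨t, ht⟩ := (Nat.modEq_iff_dvd.1 hu1.symm)
    have h1 : (u : ℤ) = 1 + t * (2 ^ K : ℕ) := by
      have h2 : (u : ℤ) - ((1 : ℕ) : ℤ) = ((2 ^ K : ℕ) : ℤ) * t := ht
      push_cast at h2 ⊢
      linarith
    rw [← natCast_zsmul, h1, add_smul, one_smul, mul_smul, natCast_zsmul, hK, smul_zero, add_zero]
  refine ⟨u • P0, ⟨v + K, ?_⟩, fun σ => ?_⟩
  · obtain ⟨w, hw⟩ := (Nat.modEq_zero_iff_dvd.1 hu2)
    have h1 : (2 ^ (v + K) : ℕ) * u = w * (N * 2 ^ K) := by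
      rw [hw, hNv, pow_add]
      ring
    rw [smul_smul, h1, mul_smul, mul_smul, hNQ, smul_zero]
  · rw [map_nsmul, ← nsmul_sub, ← hP0, hcu]

/-- a finitely generated group `A = 2 A + A[2 ^ ∞]` is finite -/
lemma fin_of {A : Type} [AddCommGroup A] (hfg : AddGroup.FG A)
    (h : ∀ P : A, ∃ Q T : A, P = Q + Q + T ∧ ∃ m : ℕ, (2 ^ m : ℕ) • T = 0) : Finite A := by
  have hM : Module.Finite ℤ A := Module.Finite.iff_addGroup_fg.2 hfg
  let t : Submodule ℤ A := Submodule.torsion ℤ A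
  have hTt : ∀ T : A, (∃ m : ℕ, (2 ^ m : ℕ) • T = 0) → T ∈ t := by
    rintro T ⟨m, hm⟩
    rw [Submodule.mem_torsion_iff]
    refine ⟨⟨((2 ^ m : ℕ) : ℤ), mem_nonZeroDivisors_of_ne_zero (by positivity)⟩, ?_⟩
    change ((2 ^ m : ℕ) : ℤ) • T = 0
    rw [natCast_zsmul, hm]
  have hle : (⊤ : Submodule ℤ (A ⧸ t)) ≤ (Ideal.span {(2 : ℤ)}) • (⊤ : Submodule ℤ (A ⧸ t)) := by
    intro x _
    obtain ⟨P, rfl⟩ := Submodule.Quotient.mk_surjective t x
    obtain ⟨Q, T, hP, hT⟩ := h P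
    have h1 : (Submodule.Quotient.mk P : A ⧸ t) = (2 : ℤ) • (Submodule.Quotient.mk Q : A ⧸ t) := by
      rw [← Submodule.Quotient.mk_smul, ← sub_eq_zero, ← Submodule.Quotient.mk_sub,
        Submodule.Quotient.mk_eq_zero, hP]
      have h2 : Q + Q + T - (2 : ℤ) • Q = T := by
        rw [two_smul]
        abel
      rw [h2]
      exact hTt T hT
    rw [h1]
    exact Submodule.smul_mem_smul (Ideal.mem_span_singleton_self 2) Submodule.mem_top
  obtain ⟨r, hr1, hr2⟩ := Submodule.exists_sub_one_mem_and_smul_eq_zero_of_fg_of_le_smul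
    (Ideal.span {(2 : ℤ)}) (⊤ : Submodule ℤ (A ⧸ t)) Module.Finite.fg_top hle
  have hr0 : r ≠ 0 := by
    rintro rfl
    rw [Ideal.mem_span_singleton] at hr1
    omega
  refine Module.finite_of_fg_torsion A fun P => ?_
  have h3 := hr2 (Submodule.Quotient.mk P) Submodule.mem_top
  rw [← Submodule.Quotient.mk_smul, Submodule.Quotient.mk_eq_zero, Submodule.mem_torsion_iff] at h3
  obtain ⟨a, ha⟩ := h3
  refine ⟨⟨(a : ℤ) * r, mul_mem a.2 (mem_nonZeroDivisors_of_ne_zero hr0)⟩, ?_⟩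
  change ((a : ℤ) * r) • P = 0
  rw [mul_smul]
  exact ha

end abs

open Pool.Agent.TH841.SH (IsR exists_rat lc_cob coc_cob locTriv_cob)

open Pool.Agent.W262.SH (QB)

/-- **The `2 ^ ∞`-Selmer group is zero.** -/
theorem selInf_zero {W : WeierstrassCurve ℚ} (hfin : Finite W.toAffine.Point)
    (hS : ∀ (k : ℕ) (x : Sha W), (2 ^ k : ℕ) • x = 0 → x = 0) : ∀ x : SelInf W, x = 0 := by
  have hFix : Finite (Fix fun σ : Gal ℚ => act W σ.toAlgHom) := by
    obtain ⟨j, -, -, hj⟩ := exists_rat W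
    refine Finite.of_surjective (α := {q : W.toAffine.Point // ∀ σ : Gal ℚ,
      act W σ.toAlgHom (j q) = j q}) (fun q => ⟨j q.1, q.2⟩) (fun P => ?_)
    obtain ⟨q, hq⟩ := hj P.1 P.2
    refine ⟨⟨q, ?_⟩, Subtype.ext hq⟩
    rw [hq]
    exact P.2
  intro x
  obtain ⟨⟨c, hc⟩, rfl⟩ := QuotientAddGroup.mk_surjective x
  refine (QuotientAddGroup.eq_zero_iff _).2 ?_
  rw [AddSubgroup.mem_addSubgroupOf]
  have hc' : IsSelInf W c := hc
  have hK : ∃ K : ℕ, ∀ σ, (2 ^ K : ℕ) • c σ = 0 := by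
    have hrange : (Set.range c).Finite := hc'.1.1.1.range_finite
    choose m hm using hc'.2
    have hex : ∀ y ∈ Set.range c, ∃ k : ℕ, (2 ^ k : ℕ) • y = 0 := by
      rintro y ⟨σ, rfl⟩
      exact ⟨m σ, hm σ⟩
    choose! k hk using hex
    obtain ⟨K, hK⟩ := (hrange.image k).bddAbove
    refine ⟨K, fun σ => ?_⟩
    have h1 := hk _ (Set.mem_range_self σ)
    have h2 : k (c σ) ≤ K := hK ⟨_, Set.mem_range_self σ, rfl⟩
    rw [← Nat.sub_add_cancel h2, pow_add, mul_smul, h1, smul_zero]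
  obtain ⟨K, hK⟩ := hK
  have hcob : ∃ P, ∀ σ : Gal ℚ, c σ = act W σ.toAlgHom P - P := by
    obtain ⟨f, hf⟩ : ∃ f : shaCoc W, f.1 = c := ⟨⟨c, hc'.1⟩, rfl⟩
    have h0 : (2 ^ K : ℕ) • f = 0 := by
      apply Subtype.ext
      rw [AddSubgroup.coe_nsmul, hf]
      funext σ
      exact hK σ
    have h1 : (2 ^ K : ℕ) • (QuotientAddGroup.mk f : Sha W) = 0 := by
      rw [← QuotientAddGroup.mk_nsmul, h0]
      rfl
    have h2 := hS K _ h1
    have h3 := (QuotientAddGroup.eq_zero_iff _).1 h2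
    rw [AddSubgroup.mem_addSubgroupOf] at h3
    obtain ⟨P, hP⟩ := h3
    refine ⟨P, fun σ => ?_⟩
    rw [← hP σ, hf]
  obtain ⟨P, hP1, hP2⟩ := two_prim (fun σ : Gal ℚ => act W σ.toAlgHom) c K hK hcob
  exact ⟨P, hP1, hP2⟩

/-- the embedding of the rational points -/
lemma ex_rat (W : WeierstrassCurve ℚ) : ∃ j : W.toAffine.Point →+ PC W,
    Function.Injective j ∧ (∀ (σ : Gal ℚ) (P : W.toAffine.Point), ga W σ (j P) = j P) ∧
    ∀ P : PC W, (∀ σ : Gal ℚ, ga W σ P = P) → ∃ q, j q = P := exists_rat W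

lemma sha_cb (W : WeierstrassCurve ℚ) (Q : PC W) : IsShaCoc W (cb W Q) :=
  ⟨⟨lc_cob W Q, coc_cob W Q⟩, fun _ _ => (loc_iff W _ _).2 (locTriv_cob W _ Q),
    (loc_iff W _ _).2 (locTriv_cob W _ Q)⟩

lemma key {W : WeierstrassCurve ℚ} (hS : ∀ x : SelInf W, x = 0) {f : Coch W} (h1 : IsShaCoc W f)
    (h2 : ∀ σ, f σ + f σ = 0) : IsCobInf W f := by
  have h3 : f ∈ selInfCoc W := ⟨h1, fun σ => ⟨1, by rw [pow_one, two_nsmul]; exact h2 σ⟩⟩
  have h4 := hS (QuotientAddGroup.mk (⟨f, h3⟩ : selInfCoc W))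
  have h5 := (QuotientAddGroup.eq_zero_iff _).1 h4
  rw [AddSubgroup.mem_addSubgroupOf] at h5
  exact h5

/-- `Ш[2] = 0` if the `2 ^ ∞`-Selmer group is zero -/
theorem sha_of {W : WeierstrassCurve ℚ}
    (hdiv : ∀ P : PC W, ∃ Q : PC W, P = Q + Q)
    (hS : ∀ x : SelInf W, x = 0) : ∀ x : Sha W, x + x = 0 → x = 0 := by
  intro x hx
  obtain ⟨f, rfl⟩ := QuotientAddGroup.mk_surjective x
  have hx1 : f + f ∈ (cob W).addSubgroupOf (shaCoc W) :=
    (QuotientAddGroup.eq_zero_iff (N := (cob W).addSubgroupOf (shaCoc W)) (f + f)).1 hx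
  rw [AddSubgroup.mem_addSubgroupOf] at hx1
  obtain ⟨P, hP⟩ := hx1
  obtain ⟨Q, rfl⟩ := hdiv P
  have hP' : ∀ σ : Gal ℚ, (f : Coch W) σ + (f : Coch W) σ =
    ga W σ (Q + Q) - (Q + Q) := hP
  have hg1 : IsShaCoc W (f.1 - cb W Q) := by
    rw [sub_eq_add_neg]
    exact sha_add f.2 (sha_neg (sha_cb W Q))
  have hg2 : ∀ σ, (f.1 - cb W Q) σ + (f.1 - cb W Q) σ = 0 := by
    intro σ
    have e1 : ∀ u v w : PC W, u + u = (v + v) - (w + w) →
        (u - (v - w)) + (u - (v - w)) = 0 := by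
      intro u v w huv
      have e2 : (u - (v - w)) + (u - (v - w)) = (u + u) - ((v + v) - (w + w)) := by abel
      rw [e2, huv, sub_self]
    refine e1 _ _ _ ?_
    rw [← map_add]
    exact hP' σ
  obtain ⟨R, -, hR⟩ := key hS hg1 hg2
  refine (QuotientAddGroup.eq_zero_iff _).2 ?_
  rw [AddSubgroup.mem_addSubgroupOf]
  refine ⟨Q + R, fun σ => ?_⟩
  have h1 : (f : Coch W) σ - (ga W σ Q - Q) = ga W σ R - R := hR σ
  rw [map_add]
  have e3 : ∀ u v w y z : PC W, u - (v - w) = y - z →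
      u = v + y - (w + z) := by
    intro u v w y z h
    rw [sub_eq_iff_eq_add] at h
    rw [h]
    abel
  exact e3 _ _ _ _ _ h1

/-- `W(ℚ)` is finite if the `2 ^ ∞`-Selmer group is zero -/
theorem finite_of {W : WeierstrassCurve ℚ} (hfg : AddGroup.FG W.toAffine.Point)
    (hdiv : ∀ P : PC W, ∃ Q : PC W, P = Q + Q)
    (hS : ∀ x : SelInf W, x = 0) : Finite W.toAffine.Point := by
  obtain ⟨j, hj, hjσ, hjf⟩ := ex_rat W
  refine fin_of hfg fun P => ?_
  obtain ⟨R, hR⟩ := hdiv (j P)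
  have h1 : ∀ σ, cb W R σ + cb W R σ = 0 := by
    intro σ
    have e1 : cb W R σ + cb W R σ = ga W σ (R + R) - (R + R) := by
      rw [map_add]
      change (ga W σ R - R) + (ga W σ R - R) = _
      abel
    rw [e1, ← hR]
    exact sub_eq_zero.2 (hjσ σ P)
  obtain ⟨T, ⟨m, hm⟩, hT⟩ := key hS (sha_cb W R) h1
  have h2 : ∀ σ : Gal ℚ, ga W σ (R - T) = R - T := by
    intro σ
    have h3 : ga W σ R - R = ga W σ T - T := hT σ
    rw [map_sub]
    have e2 : ∀ u v w y : PC W, u - v = w - y → u - w = v - y := by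
      intro u v w y h
      rw [sub_eq_sub_iff_add_eq_add] at h ⊢
      rw [h]
      exact add_comm _ _
    exact e2 _ _ _ _ h3
  obtain ⟨Q, hQ⟩ := hjf _ h2
  refine ⟨Q, P - (Q + Q), by abel, m, hj ?_⟩
  rw [map_nsmul, map_sub, map_add, hQ, map_zero]
  have e3 : j P - ((R - T) + (R - T)) = T + T := by
    have e4 : j P = R + R := hR
    rw [e4]
    abel
  rw [e3]
  change (2 ^ m : ℕ) • (T + T) = 0
  rw [smul_add, hm, add_zero]

/-- **The criterion**: the `2 ^ ∞`-Selmer group is zero if and only if the rank is zero and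
`Ш[2] = 0`. -/
theorem selInf_iff {W : WeierstrassCurve ℚ} {a b c : AlgebraicClosure ℚ}
    (h : IsR (BC W) a b c) (hab : a ≠ b) (hac : a ≠ c) (hbc : b ≠ c)
    (hfg : AddGroup.FG W.toAffine.Point) :
    (∀ x : SelInf W, x = 0) ↔ Finite W.toAffine.Point ∧ ∀ x : Sha W, x + x = 0 → x = 0 := by
  constructor
  · intro hS
    have hdiv : ∀ P : PC W, ∃ Q : PC W, P = Q + Q := by
      classical
      intro P
      exact h.div two_ne_zero hab hac hbc P
    exact ⟨finite_of hfg hdiv hS, sha_of hdiv hS⟩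
  · rintro ⟨h1, h2⟩
    refine selInf_zero h1 fun k => ?_
    induction k with
    | zero =>
      intro x hx
      rw [pow_zero, one_smul] at hx
      exact hx
    | succ k ih =>
      intro x hx
      rw [pow_succ, mul_smul] at hx
      have h3 := ih _ hx
      rw [two_nsmul] at h3
      exact h2 x h3

/-- Mordell-Weil from a number field over which the points of order two are defined -/
lemma fg_of_three {L : Type} [Field L] [NumberField L] {W : WeierstrassCurve ℚ} {e1 e2 e3 : L}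
    (h : IsR (W.baseChange L) e1 e2 e3) (h12 : e1 ≠ e2) (h13 : e1 ≠ e3) (h23 : e2 ≠ e3) :
    AddGroup.FG W.toAffine.Point := by
  classical
  have hK : AddGroup.FG (Pool.Agent.H437R2.Man.MW.crv (-e1) (-e2) (-e3)).toAffine.Point :=
    Pool.Agent.H437R2.Man.MW.pt_fg (fun h => h12 (neg_injective h))
      (fun h => h13 (neg_injective h)) (fun h => h23 (neg_injective h))
  have heq : Pool.Agent.H437R2.Man.MW.crv (-e1) (-e2) (-e3) = W.baseChange L := by
    symm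
    apply WeierstrassCurve.ext
    · rw [h.h1]
      rfl
    · rw [h.h2]
      change _ = -e1 + -e2 + -e3
      ring
    · rw [h.h3]
      rfl
    · rw [h.h4]
      change _ = -e1 * -e2 + -e1 * -e3 + -e2 * -e3
      ring
    · rw [h.h6]
      change _ = -e1 * -e2 * -e3
      ring
  rw [heq] at hK
  suffices H : ∀ W' : WeierstrassCurve ℚ, W' = W.baseChange ℚ →
      AddGroup.FG W'.toAffine.Point by
    apply H W
    apply WeierstrassCurve.ext <;> simp [WeierstrassCurve.baseChange]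
  rintro W' rfl
  exact Pool.Agent.H64R2.DCMW.fg_of_inj (Affine.Point.map (W' := W) (Algebra.ofId ℚ L))
    (Affine.Point.map_injective _) hK

/-- the curve `y² = x³ + 5805 D² x - 285714 D³` -/
lemma isR_ed {L : Type} [Field L] [Algebra ℚ L] [CharZero L] {D : ℤ} (hD : D ≠ 0) {r : L}
    (hr : r ^ 2 = -7) :
    ∃ a b c : L, IsR ((Pool.Agent.Z702.sh (5805 * D ^ 2) (-285714 * D ^ 3)).baseChange L) a b c ∧
      a ≠ b ∧ a ≠ c ∧ b ≠ c := by
  have hD0 : (D : L) ≠ 0 := by exact_mod_cast hD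
  have hr0 : r ≠ 0 := by
    rintro rfl
    norm_num at hr
  have hb : ∀ z : ℤ, algebraMap ℚ L ((z : ℤ) : ℚ) = (z : L) := fun z => map_intCast _ z
  refine ⟨39 * D, D * (-39 + 63 * r) / 2, D * (-39 - 63 * r) / 2, ⟨?_, ?_, ?_, ?_, ?_⟩, ?_, ?_, ?_⟩
  · exact map_zero _
  · refine (map_zero (algebraMap ℚ L)).trans ?_
    ring
  · exact map_zero _
  · refine (hb _).trans ?_
    push_cast
    linear_combination (3969 / 4 * (D : L) ^ 2) * hr
  · refine (hb _).trans ?_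
    push_cast
    linear_combination (-154791 / 4 * (D : L) ^ 3) * hr
  · intro h
    have h1 : (D : L) * (117 - 63 * r) = 0 := by linear_combination 2 * h
    have h2 := (mul_eq_zero.1 h1).resolve_left hD0
    have h3 : (63 * r) ^ 2 = 117 ^ 2 := by
      rw [← sub_eq_zero.1 h2]
    have h4 : (63 * r) ^ 2 = 63 ^ 2 * -7 := by rw [mul_pow, hr]
    rw [h4] at h3
    norm_num at h3
  · intro h
    have h1 : (D : L) * (117 + 63 * r) = 0 := by linear_combination 2 * h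
    have h2 := (mul_eq_zero.1 h1).resolve_left hD0
    have h3 : (63 * r) ^ 2 = 117 ^ 2 := by
      rw [← neg_eq_iff_add_eq_zero.2 h2]
      ring
    have h4 : (63 * r) ^ 2 = 63 ^ 2 * -7 := by rw [mul_pow, hr]
    rw [h4] at h3
    norm_num at h3
  · intro h
    have h1 : (D : L) * (63 * r) = 0 := by linear_combination h
    rcases mul_eq_zero.1 h1 with h2 | h2
    · exact hD0 h2
    · exact hr0 ((mul_eq_zero.1 h2).resolve_left (by norm_num))

lemma fg_ed {D : ℤ} (hD : D ≠ 0) :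
    AddGroup.FG (Pool.Agent.Z702.sh (5805 * D ^ 2) (-285714 * D ^ 3)).toAffine.Point := by
  have hF : Fact (∀ r : ℚ, r ^ 2 ≠ (-7) + 0 * r) :=
    ⟨fun r hr => by nlinarith [sq_nonneg r]⟩
  have hnf : NumberField (QuadraticAlgebra ℚ (-7) 0) :=
    { to_charZero := inferInstance
      to_finiteDimensional := inferInstance }
  have hω : (⟨0, 1⟩ : QuadraticAlgebra ℚ (-7) 0) ^ 2 = -7 := by
    have e : (-7 : QuadraticAlgebra ℚ (-7) 0) = algebraMap ℚ (QuadraticAlgebra ℚ (-7) 0) (-7) := by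
      rw [map_neg, map_ofNat]
    rw [e, Pool.Agent.Y668.quad_map, pow_two, QuadraticAlgebra.mk_mul_mk]
    congr 1 <;> ring
  obtain ⟨a, b, c, h, h1, h2, h3⟩ := isR_ed (L := QuadraticAlgebra ℚ (-7) 0) hD hω
  exact fg_of_three h h1 h2 h3

/-- the criterion for the twists of `X_0(14)` -/
theorem selInf_ed {D : ℤ} (hD : D ≠ 0) :
    (∀ x : SelInf (Pool.Agent.Z702.sh (5805 * D ^ 2) (-285714 * D ^ 3)), x = 0) ↔
      Finite (Pool.Agent.Z702.sh (5805 * D ^ 2) (-285714 * D ^ 3)).toAffine.Point ∧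
      ∀ x : Sha (Pool.Agent.Z702.sh (5805 * D ^ 2) (-285714 * D ^ 3)), x + x = 0 → x = 0 := by
  obtain ⟨r, hr⟩ := IsAlgClosed.exists_pow_nat_eq (-7 : AlgebraicClosure ℚ) (n := 2) (by norm_num)
  obtain ⟨a, b, c, h, h1, h2, h3⟩ := isR_ed hD hr
  exact selInf_iff h h1 h2 h3 (fg_ed hD)

/-- a finite group tensored with a divisible group is zero -/
theorem tensor_div_zero {A D : Type} [AddCommGroup A] [Finite A] [AddCommGroup D]
    (hD : ∀ (n : ℕ), n ≠ 0 → ∀ x : D, ∃ y : D, n • y = x) : ∀ x : TensorProduct ℤ A D, x = 0 := by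
  intro x
  induction x using TensorProduct.induction_on with
  | zero => rfl
  | tmul a q =>
    have h1 : (Nat.card A : ℤ) • a = 0 := by
      rw [natCast_zsmul]
      exact card_nsmul_eq_zero'
    obtain ⟨y, rfl⟩ := hD (Nat.card A) Nat.card_pos.ne' q
    rw [← natCast_zsmul, TensorProduct.tmul_smul, TensorProduct.smul_tmul', h1,
      TensorProduct.zero_tmul]
  | add x y hx hy => rw [hx, hy, add_zero]

/-- `ℚ₂ / ℤ₂` is divisible -/
lemma pruf_div (n : ℕ) (hn : n ≠ 0) (x : Pruf) : ∃ y : Pruf, n • y = x := by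
  obtain ⟨q, rfl⟩ := QuotientAddGroup.mk_surjective x
  refine ⟨QuotientAddGroup.mk (q / n), ?_⟩
  rw [← QuotientAddGroup.mk_nsmul, nsmul_eq_mul, mul_div_cancel₀]
  exact_mod_cast hn

lemma pow_of_two {A : Type} [AddCommGroup A] (h : ∀ x : A, x + x = 0 → x = 0) :
    ∀ (k : ℕ) (x : A), (2 ^ k : ℕ) • x = 0 → x = 0 := by
  intro k
  induction k with
  | zero =>
    intro x hx
    rw [pow_zero, one_smul] at hx
    exact hx
  | succ k ih =>
    intro x hx
    rw [pow_succ, mul_smul] at hx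
    have h3 := ih _ hx
    rw [two_nsmul] at h3
    exact h x h3

/-- all the terms of `0 → W(ℚ) ⊗ ℚ₂ / ℤ₂ → Sel_{2 ^ ∞}(W) → Ш(W)[2 ^ ∞] → 0` are zero -/
def ZeroSeq (W : WeierstrassCurve ℚ) : Prop :=
  (∀ x : TensorProduct ℤ W.toAffine.Point Pruf, x = 0) ∧ (∀ x : SelInf W, x = 0) ∧
    ∀ (k : ℕ) (x : Sha W), (2 ^ k : ℕ) • x = 0 → x = 0

/-- the sequence is zero if and only if its middle term is -/
theorem zeroSeq_ed {D : ℤ} (hD : D ≠ 0) :
    ZeroSeq (Pool.Agent.Z702.sh (5805 * D ^ 2) (-285714 * D ^ 3)) ↔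
      ∀ x : SelInf (Pool.Agent.Z702.sh (5805 * D ^ 2) (-285714 * D ^ 3)), x = 0 := by
  refine ⟨fun h => h.2.1, fun h => ?_⟩
  obtain ⟨h1, h2⟩ := (selInf_ed hD).1 h
  exact ⟨tensor_div_zero pruf_div, h, pow_of_two h2⟩

end Pool.Agent.Y17.X.SI
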