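import Pool.Agent.Y17.X.Joint

/-!
# Injectivity of the multiplication and monotonicity of the counts
-/

set_option autoImplicit false

open Finset Filter

namespace Pool.Agent.Y17.X

open Pool.Agent.Y687.MQ (AdmD)

theorem star_inj {m m' M : ℤ} (hm : AdmD m) (hm' : AdmD m') (hM : AdmD M)
    (h : star m M = star m' M) : m = m' := by
  have h1 := (star_adm hm hM).2
  have h2 := (star_adm hm' hM).2
  rw [h, h2] at h1
  have h3 : m'.natAbs.primeFactors = m.natAbs.primeFactors := symmDiff_right_injective _ h1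
  have h4 : m'.natAbs = m.natAbs := by
    rw [← Nat.prod_primeFactors_of_squarefree (Int.squarefree_natAbs.2 hm'.1), h3,
      Nat.prod_primeFactors_of_squarefree (Int.squarefree_natAbs.2 hm.1)]
  have h5 := hm.2.1
  have h6 := hm'.2.1
  rcases Int.natAbs_eq_natAbs_iff.1 h4 with e | e
  · exact e.symm
  · omega

theorem count_mono {P Q : ℤ → Prop} (h : ∀ D, P D → Q D) (X : ℕ) : count P X ≤ count Q X := by
  have hfin : {D : ℤ | |D| ≤ X ∧ Q D}.Finite :=
    (Set.finite_Icc (-(X : ℤ)) X).subset fun D hD => abs_le.1 hD.1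
  have hc : ∀ P : ℤ → Prop, count P X = {D : ℤ | |D| ≤ X ∧ P D}.ncard := fun P => rfl
  rw [hc, hc]
  exact Set.ncard_le_ncard (fun D hD => ⟨hD.1, h D hD.2⟩) hfin

end Pool.Agent.Y17.X
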