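import Pool.Agent.Y687.MQ.Disc
import Pool.Agent.Z705.Pos
import Pool.Agent.Y703.CQ.Fin

/-!
# The class of discriminants as a set of natural numbers

Translation of the exact proportion (project CQ, `Pool.Agent.Y703.CQ.t_DEN`) to the discriminants of
a given sign.
-/

set_option autoImplicit false
set_option linter.style.haveILetI false

open Finset Filter

namespace Pool.Agent.Y17.X

open Pool.Agent.Y687 (NN InertT DD)
open Pool.Agent.Y687.MQ (AdmD SP IP matD of_admD union_SP disc disc_mod4 leg_disc leg_iff disc_natAbs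
  sp_not_inert)
open Pool.Agent.Z700 (pr)
open Pool.Agent.Z701 (Sp)
open Pool.Agent.Y703.CQ (Gd Sol Cl In cu nr c2)

/-- the function on the diagonal -/
noncomputable def fD (p : ℕ) : ZMod 2 := open Classical in if 8 ∣ NN 1 p then 0 else 1

/-- the kernel form of the criterion -/
theorem gd_iff {D : ℤ} (h : AdmD D) :
    Gd fD D.natAbs.primeFactors ↔ (matD D).det ≠ 0 := by
  classical
  obtain ⟨hS, -, -, -⟩ := of_admD h
  set F := D.natAbs.primeFactors with hF
  have hmv : ∀ (x : ℕ → ZMod 2) (i : SP D),
      (matD D).mulVec (fun j : SP D => x j) i =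
        ∑ q ∈ F, nr i q * (cu x q + x i) + fD i * x i := by
    intro x i
    have hii : nr (i : ℕ) (i : ℕ) = 0 := by
      unfold nr
      rw [if_pos]
      exact ⟨0, by simp⟩
    have hcard : (((F.filter fun r : ℕ => r ≠ (i : ℕ) ∧ ¬ IsSquare (r : ZMod (i : ℕ))).card :
        ℕ) : ZMod 2) = ∑ r ∈ F, nr i r := by
      rw [Finset.card_filter]
      push_cast
      refine Finset.sum_congr rfl fun r _ => ?_
      by_cases h1 : r = (i : ℕ)
      · subst h1
        rw [hii, if_neg (fun h => h.1 rfl)]
      · unfold nr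
        by_cases h2 : IsSquare (r : ZMod (i : ℕ))
        · rw [if_pos h2, if_neg (fun h => h.2 h2)]
        · rw [if_neg h2, if_pos ⟨h1, h2⟩]
    have hcu : ∑ q ∈ F, nr i q * cu x q = ∑ q ∈ SP D, nr i q * x q := by
      unfold SP
      rw [Finset.sum_filter]
      refine Finset.sum_congr rfl fun q _ => ?_
      unfold cu
      by_cases h8 : q % 8 = 1
      · rw [if_pos h8, if_pos h8]
      · rw [if_neg h8, if_neg h8, mul_zero]
    have hsum : ∑ q ∈ F, nr i q * (cu x q + x i) = ∑ q ∈ SP D, nr i q * x q +
        (∑ r ∈ F, nr i r) * x i := by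
      simp only [mul_add, Finset.sum_add_distrib]
      rw [hcu, Finset.sum_mul]
    rw [hsum]
    unfold Matrix.mulVec dotProduct
    have hent : ∀ j : SP D, (matD D) i j * x j = nr i j * x j +
        if i = j then (∑ r ∈ F, nr i r + fD i) * x i else 0 := by
      intro j
      unfold matD
      rw [Matrix.of_apply]
      by_cases hij : i = j
      · subst hij
        rw [if_pos rfl, if_pos rfl, hii, zero_mul, zero_add, hcard]
        rfl
      · rw [if_neg hij, if_neg hij, add_zero]
        rfl
    simp only [hent, Finset.sum_add_distrib, Finset.sum_ite_eq, Finset.mem_univ, if_true]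
    rw [Finset.sum_coe_sort (SP D) (fun j => nr i j * x j)]
    ring
  constructor
  · intro hG hdet
    obtain ⟨v, hv, hv0⟩ := Matrix.exists_mulVec_eq_zero_iff.2 hdet
    let x : ℕ → ZMod 2 := fun q => if hq : q ∈ SP D then v ⟨q, hq⟩ else 0
    have hxv : (fun j : SP D => x j) = v := by
      funext j
      simp only [x]
      rw [dif_pos j.2]
    have hsol : Sol fD F x := by
      intro p hp h8
      have hpS : p ∈ SP D := Finset.mem_filter.2 ⟨hp, h8⟩
      have := hmv x ⟨p, hpS⟩
      rw [hxv, hv0] at this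
      exact this.symm
    refine hv ?_
    funext j
    have h1 := hG x hsol j (Finset.mem_filter.1 j.2).1 (Finset.mem_filter.1 j.2).2
    rw [← hxv]
    exact h1
  · intro hdet x hx p hp h8
    by_contra hne
    refine hdet (Matrix.exists_mulVec_eq_zero_iff.1 ⟨fun j : SP D => x j, ?_, ?_⟩)
    · intro h0
      exact hne (congrFun h0 ⟨p, Finset.mem_filter.2 ⟨hp, h8⟩⟩)
    · funext i
      rw [hmv]
      exact hx i (Finset.mem_filter.1 i.2).1 (Finset.mem_filter.1 i.2).2

/-- the parameter of the sign -/
def KK (s : ℤ) : Finset ℕ := if s = 1 then {0} else {1}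

theorem ok_KK {s : ℤ} (hs : s = 1 ∨ s = -1) : Pool.Agent.Y703.CQ.Ok {3, 5} (KK s) := by
  refine ⟨Or.inr rfl, ?_⟩
  rcases hs with rfl | rfl
  · left; unfold KK; simp
  · right; unfold KK; simp

theorem three_iff {T : Finset ℕ} (hT : ∀ q ∈ T, InertT q) {s : ℤ} (hs : s = 1 ∨ s = -1) :
    DD T = s * (pr T : ℤ) ↔ (T.filter fun p => p % 8 = 3).card % 2 ∈ KK s := by
  have hpos : 0 < (pr T : ℤ) := by
    have := Pool.Agent.Z700.pr_pos fun q hq => (hT q hq).1
    exact_mod_cast this
  have e := Pool.Agent.Z705.DD_eq T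
  have hf : (T.filter fun q => ¬ q % 4 = 1) = T.filter fun p => p % 8 = 3 := by
    refine Finset.filter_congr fun q hq => ?_
    have := (hT q hq).2.1
    omega
  rw [hf] at e
  rw [e]
  rcases Nat.mod_two_eq_zero_or_one (T.filter fun p => p % 8 = 3).card with h | h
  · rw [(Nat.even_iff.2 h).neg_one_pow, h]
    rcases hs with rfl | rfl
    · unfold KK; simp
    · unfold KK
      simp only [one_mul]
      constructor
      · intro h1; omega
      · intro h1; simp at h1
  · rw [(Nat.odd_iff.2 h).neg_one_pow, h]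
    rcases hs with rfl | rfl
    · unfold KK
      simp only [one_mul]
      constructor
      · intro h1; omega
      · intro h1; simp at h1
    · unfold KK; simp

/-- the class in terms of natural numbers -/
theorem adm_iff {s : ℤ} (hs : s = 1 ∨ s = -1) {n : ℕ} (hn : 1 ≤ n) :
    AdmD (s * n) ↔ Squarefree n ∧ Cl {3, 5} (KK s) n.primeFactors := by
  classical
  have habs : (s * (n : ℤ)).natAbs = n := by
    rcases hs with rfl | rfl
    · simp
    · simp
  have hsq : Squarefree (s * (n : ℤ)) ↔ Squarefree n := by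
    rw [← Int.squarefree_natAbs, habs]
  constructor
  · intro h
    obtain ⟨h1, h2, h3, h4⟩ := of_admD h
    have hU := union_SP (s * n)
    rw [habs] at hU
    refine ⟨hsq.1 h.1, ?_, ?_, ?_⟩
    · intro p hp
      rw [← hU] at hp
      rcases Finset.mem_union.1 hp with hp | hp
      · exact Or.inl (h1 p hp)
      · right
        have k := h2 p hp
        refine ⟨k.1, ?_, ?_, k.2.2⟩
        · rintro rfl
          exact h3.1 hp
        · have := k.2.1
          rcases this with e | e <;> rw [e] <;> simp
    · have e : (n.primeFactors.filter fun p => p % 8 = 5) =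
          (IP (s * n)).filter fun p => p % 8 = 5 := by
        unfold IP
        rw [habs, Finset.filter_filter]
        refine Finset.filter_congr fun q _ => ?_
        omega
      rw [e]
      exact h3.2
    · have e : (n.primeFactors.filter fun p => p % 8 = 3) =
          (IP (s * n)).filter fun p => p % 8 = 3 := by
        unfold IP
        rw [habs, Finset.filter_filter]
        refine Finset.filter_congr fun q _ => ?_
        omega
      rw [e]
      refine (three_iff h2 hs).1 ?_
      have h5 : (pr (SP (s * n)) : ℤ) * (pr (IP (s * n)) : ℤ) = n := by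
        have h6 := disc_natAbs h1 h2
        rw [h4, habs, hU, Nat.prod_primeFactors_of_squarefree (hsq.1 h.1)] at h6
        have h7 : pr (SP (s * n)) * pr (IP (s * n)) = n := by
          unfold pr
          rw [← Finset.prod_union (by
            rw [Finset.disjoint_left]
            intro p hp hq
            exact sp_not_inert (h1 p hp) (h2 p hq)), hU]
          exact Nat.prod_primeFactors_of_squarefree (hsq.1 h.1)
        exact_mod_cast h7
      have hP0 : (pr (SP (s * n)) : ℤ) ≠ 0 := by
        intro h0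
        rw [h0, zero_mul] at h5
        omega
      have h8 : (pr (SP (s * n)) : ℤ) * DD (IP (s * n)) = s * n := h4
      have h9 : (pr (SP (s * n)) : ℤ) * DD (IP (s * n)) =
          (pr (SP (s * n)) : ℤ) * (s * (pr (IP (s * n)) : ℤ)) := by
        calc (pr (SP (s * n)) : ℤ) * DD (IP (s * n)) = s * (n : ℤ) := h8
          _ = s * ((pr (SP (s * n)) : ℤ) * (pr (IP (s * n)) : ℤ)) := congrArg (s * ·) h5.symm
          _ = _ := by ring
      exact mul_left_cancel₀ hP0 h9
  · rintro ⟨h1, h2, h3, h4⟩
    set P := n.primeFactors.filter fun p => p % 8 = 1 with hPd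
    set T := n.primeFactors.filter fun p => ¬ p % 8 = 1 with hTd
    have hP : ∀ p ∈ P, Sp p := by
      intro p hp
      obtain ⟨k1, k2⟩ := Finset.mem_filter.1 hp
      rcases h2 p k1 with k3 | k3
      · exact k3
      · have := k3.2.2.1
        simp only [Finset.mem_insert, Finset.mem_singleton] at this
        omega
    have hT : ∀ q ∈ T, InertT q ∧ q ≠ 3 := by
      intro q hq
      obtain ⟨k1, k2⟩ := Finset.mem_filter.1 hq
      rcases h2 q k1 with k3 | k3
      · exact absurd k3.2.1 k2
      · have h5 := k3.2.2.1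
        simp only [Finset.mem_insert, Finset.mem_singleton] at h5
        exact ⟨⟨k3.1, h5, k3.2.2.2⟩, k3.2.1⟩
    have hT' : ∀ q ∈ T, InertT q := fun q hq => (hT q hq).1
    have hU : P ∪ T = n.primeFactors := Finset.filter_union_filter_not_eq _ _
    have e5 : (T.filter fun p => p % 8 = 5) = n.primeFactors.filter fun p => p % 8 = 5 := by
      rw [hTd, Finset.filter_filter]
      refine Finset.filter_congr fun q _ => ?_
      omega
    have e3 : (T.filter fun p => p % 8 = 3) = n.primeFactors.filter fun p => p % 8 = 3 := by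
      rw [hTd, Finset.filter_filter]
      refine Finset.filter_congr fun q _ => ?_
      omega
    have hDD : DD T = s * (pr T : ℤ) := (three_iff hT' hs).2 (by rw [e3]; exact h4)
    have hprod : (pr P : ℤ) * (pr T : ℤ) = n := by
      have h7 : pr P * pr T = n := by
        unfold pr
        rw [← Finset.prod_union (by
          rw [Finset.disjoint_left]
          intro p hp hq
          exact sp_not_inert (hP p hp) (hT' p hq)), hU]
        exact Nat.prod_primeFactors_of_squarefree h1
      exact_mod_cast h7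
    have hdisc : disc P T = s * n := by
      unfold disc
      rw [hDD, ← hprod]
      ring
    refine ⟨hsq.2 h1, ?_, ?_, ?_⟩
    · rw [← hdisc]
      exact disc_mod4 hP hT'
    · rw [← leg_iff, ← hdisc, leg_disc hP hT', e5, (Nat.even_iff.2 h3).neg_one_pow]
    · intro p hp hd
      have hpn : p ∈ n.primeFactors := by
        refine Nat.mem_primeFactors.2 ⟨hp, ?_, by omega⟩
        have := Int.natCast_dvd.1 hd
        rwa [habs] at this
      rw [← hU] at hpn
      rcases Finset.mem_union.1 hpn with k | k
      · refine ⟨?_, Or.inl (hP p k)⟩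
        rintro rfl
        exact absurd (hP 3 k).2.1 (by norm_num)
      · exact ⟨(hT p k).2, Or.inr (hT' p k)⟩

/-- the number of the integers `D` with `|D| ≤ X` and `Q D` -/
noncomputable def count (Q : ℤ → Prop) (X : ℕ) : ℕ := Nat.card {D : ℤ // |D| ≤ X ∧ Q D}

open Classical in
theorem count_eq {s : ℤ} (hs : s = 1 ∨ s = -1) (Q : ℤ → Prop) (X : ℕ) :
    count (fun D => AdmD D ∧ 0 < s * D ∧ Q D) X = ((Icc 1 X).filter fun n : ℕ =>
      Squarefree n ∧ Cl {3, 5} (KK s) n.primeFactors ∧ Q (s * n)).card := by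
  have hss : s * s = 1 := by rcases hs with rfl | rfl <;> norm_num
  unfold count
  rw [← Nat.card_eq_finsetCard]
  refine Nat.card_congr
    { toFun := fun D => ⟨(s * D.1).toNat, ?_⟩
      invFun := fun n => ⟨s * n.1, ?_⟩
      left_inv := ?_
      right_inv := ?_ }
  · obtain ⟨D, h1, h2, h3, h4⟩ := D
    have e : (((s * D).toNat : ℕ) : ℤ) = s * D := Int.toNat_of_nonneg h3.le
    have e2 : s * (((s * D).toNat : ℕ) : ℤ) = D := by
      rw [e, ← mul_assoc, hss, one_mul]
    have e3 : |D| = s * D := by
      rcases hs with rfl | rfl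
      · rw [abs_of_pos (by omega)]; ring
      · rw [abs_of_neg (by omega)]; ring
    have h5 : 1 ≤ (s * D).toNat := by omega
    have h6 : (s * D).toNat ≤ X := by
      have : (((s * D).toNat : ℕ) : ℤ) ≤ X := by rw [e, ← e3]; exact h1
      exact_mod_cast this
    have h7 := (adm_iff hs h5).1 (by rw [e2]; exact h2)
    refine Finset.mem_filter.2 ⟨Finset.mem_Icc.2 ⟨h5, h6⟩, h7.1, h7.2, ?_⟩
    rw [e2]
    exact h4
  · obtain ⟨n, hn⟩ := n
    obtain ⟨h1, h2, h3, h4⟩ := Finset.mem_filter.1 hn
    obtain ⟨h5, h6⟩ := Finset.mem_Icc.1 h1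
    have h7 : 0 < s * (s * (n : ℤ)) := by
      rw [← mul_assoc, hss, one_mul]
      exact_mod_cast h5
    refine ⟨?_, (adm_iff hs h5).2 ⟨h2, h3⟩, h7, h4⟩
    have e3 : |s * (n : ℤ)| = n := by
      rw [abs_mul, show |s| = 1 by rcases hs with rfl | rfl <;> norm_num, one_mul]
      exact abs_of_nonneg (by positivity)
    rw [e3]
    exact_mod_cast h6
  · rintro ⟨D, h1, h2, h3, h4⟩
    have e : (((s * D).toNat : ℕ) : ℤ) = s * D := Int.toNat_of_nonneg h3.le
    refine Subtype.ext ?_
    show s * (((s * D).toNat : ℕ) : ℤ) = D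
    rw [e, ← mul_assoc, hss, one_mul]
  · rintro ⟨n, hn⟩
    refine Subtype.ext ?_
    show (s * (s * (n : ℤ))).toNat = n
    rw [← mul_assoc, hss, one_mul, Int.toNat_natCast]

/-! ### the limit -/

open Classical in
/-- the class is infinite -/
theorem card_atTop {s : ℤ} (hs : s = 1 ∨ s = -1) : Tendsto (fun X : ℕ =>
    ((Icc 1 X).filter fun n : ℕ => Squarefree n ∧ Cl {3, 5} (KK s) n.primeFactors).card)
    atTop atTop := by
  have hinf : {n : ℕ | 1 ≤ n ∧ Squarefree n ∧ Cl {3, 5} (KK s) n.primeFactors}.Infinite := by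
    have h3 := Pool.Agent.Y687.MQ.inf_in ∅ (by simp) (fun _ => 1) (by simp) (e := 3)
      (Or.inl rfl)
    have hsp : {p : ℕ | Sp p}.Infinite :=
      (Pool.Agent.Y687.MQ.inf_p ∅ (by simp) 0).mono fun p hp => hp.1
    rcases hs with rfl | rfl
    · refine hsp.mono ?_
      intro p hp
      have hpp : p.Prime := hp.1
      refine ⟨hpp.one_lt.le, hpp.squarefree, ?_⟩
      rw [hpp.primeFactors]
      have h8 := hp.2.1
      refine ⟨fun q hq => ?_, ?_, ?_⟩
      · rw [Finset.mem_singleton] at hq
        subst hq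
        exact Or.inl hp
      · rw [Finset.filter_singleton, if_neg (by omega)]
        rfl
      · rw [Finset.filter_singleton, if_neg (by omega)]
        unfold KK
        simp
    · refine (h3.sdiff (Set.finite_singleton 3)).mono ?_
      rintro q ⟨⟨hq, hq8, -⟩, hq3⟩
      have hqq : q.Prime := hq.1
      refine ⟨hqq.one_lt.le, hqq.squarefree, ?_⟩
      rw [hqq.primeFactors]
      refine ⟨fun r hr => ?_, ?_, ?_⟩
      · rw [Finset.mem_singleton] at hr
        subst hr
        exact Or.inr ⟨hqq, hq3, by rw [hq8]; simp, hq.2.2⟩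
      · rw [Finset.filter_singleton, if_neg (by omega)]
        rfl
      · rw [Finset.filter_singleton, if_pos hq8]
        unfold KK
        simp
  rw [tendsto_atTop]
  intro b
  obtain ⟨t, ht1, ht2⟩ := hinf.exists_subset_card_eq b
  filter_upwards [eventually_ge_atTop (t.sup id)] with X hX
  rw [← ht2]
  refine Finset.card_le_card ?_
  intro n hn
  obtain ⟨h1, h2, h3⟩ := ht1 hn
  refine Finset.mem_filter.2 ⟨Finset.mem_Icc.2 ⟨h1, ?_⟩, h2, h3⟩
  exact le_trans (Finset.le_sup (f := id) hn) hX

open Classical in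
/-- **the exact proportion**, for a property `Q` which is equivalent to the criterion for all but one
`D` -/
theorem prop_of {s : ℤ} (hs : s = 1 ∨ s = -1) (Q : ℤ → Prop)
    (hQ : ∀ D : ℤ, AdmD D → D ≠ 1 → (Q D ↔ (matD D).det ≠ 0)) :
    Tendsto (fun X : ℕ => (count (fun D => AdmD D ∧ 0 < s * D ∧ Q D) X : ℝ) /
      (count (fun D => AdmD D ∧ 0 < s * D) X : ℝ)) atTop (nhds c2) := by
  have hD := Pool.Agent.Y703.CQ.t_DEN {3, 5} (KK s) fD (ok_KK hs)
  have hB := card_atTop hs
  set B : ℕ → ℕ := fun X => ((Icc 1 X).filter fun n : ℕ => Squarefree n ∧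
    Cl {3, 5} (KK s) n.primeFactors).card with hBd
  set N : ℕ → ℕ := fun X => ((Icc 1 X).filter fun n : ℕ => Squarefree n ∧
    Cl {3, 5} (KK s) n.primeFactors ∧ Gd fD n.primeFactors).card with hNd
  have hBR : Tendsto (fun X => (B X : ℝ)) atTop atTop := tendsto_natCast_atTop_atTop.comp hB
  have h1 : ∀ X, count (fun D => AdmD D ∧ 0 < s * D) X = B X := by
    intro X
    have := count_eq hs (fun _ => True) X
    simp only [and_true] at this
    exact this
  have h2 : ∀ X, count (fun D => AdmD D ∧ 0 < s * D ∧ Q D) X =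
      ((Icc 1 X).filter fun n : ℕ => Squarefree n ∧ Cl {3, 5} (KK s) n.primeFactors ∧
        Q (s * n)).card := fun X => count_eq hs Q X
  have h3 : ∀ n : ℕ, 1 ≤ n → Squarefree n → Cl {3, 5} (KK s) n.primeFactors → s * (n : ℤ) ≠ 1 →
      (Q (s * n) ↔ Gd fD n.primeFactors) := by
    intro n hn k1 k2 k3
    have k4 := (adm_iff hs hn).2 ⟨k1, k2⟩
    rw [hQ _ k4 k3, ← gd_iff k4]
    have habs : (s * (n : ℤ)).natAbs = n := by
      rcases hs with rfl | rfl
      · simp
      · simp
    rw [habs]
  -- the two counts differ by at most one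
  have h4 : ∀ X, |(count (fun D => AdmD D ∧ 0 < s * D ∧ Q D) X : ℝ) - (N X : ℝ)| ≤ 1 := by
    intro X
    rw [h2 X]
    have e1 : ((Icc 1 X).filter fun n : ℕ => Squarefree n ∧ Cl {3, 5} (KK s) n.primeFactors ∧
        Q (s * n)).card ≤ N X + 1 := by
      have : ((Icc 1 X).filter fun n : ℕ => Squarefree n ∧ Cl {3, 5} (KK s) n.primeFactors ∧
          Q (s * n)) ⊆ insert 1 ((Icc 1 X).filter fun n : ℕ => Squarefree n ∧
            Cl {3, 5} (KK s) n.primeFactors ∧ Gd fD n.primeFactors) := by
        intro n hn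
        obtain ⟨k1, k2, k3, k4⟩ := Finset.mem_filter.1 hn
        by_cases hn1 : n = 1
        · subst hn1
          exact Finset.mem_insert_self _ _
        · refine Finset.mem_insert_of_mem (Finset.mem_filter.2 ⟨k1, k2, k3, ?_⟩)
          refine (h3 n (Finset.mem_Icc.1 k1).1 k2 k3 ?_).1 k4
          intro h
          apply hn1
          rcases hs with rfl | rfl <;> omega
      exact le_trans (Finset.card_le_card this) (Finset.card_insert_le _ _)
    have e2 : N X ≤ ((Icc 1 X).filter fun n : ℕ => Squarefree n ∧ Cl {3, 5} (KK s) n.primeFactors ∧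
        Q (s * n)).card + 1 := by
      have : ((Icc 1 X).filter fun n : ℕ => Squarefree n ∧ Cl {3, 5} (KK s) n.primeFactors ∧
          Gd fD n.primeFactors) ⊆ insert 1 ((Icc 1 X).filter fun n : ℕ => Squarefree n ∧
            Cl {3, 5} (KK s) n.primeFactors ∧ Q (s * n)) := by
        intro n hn
        obtain ⟨k1, k2, k3, k4⟩ := Finset.mem_filter.1 hn
        by_cases hn1 : n = 1
        · subst hn1
          exact Finset.mem_insert_self _ _
        · refine Finset.mem_insert_of_mem (Finset.mem_filter.2 ⟨k1, k2, k3, ?_⟩)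
          refine (h3 n (Finset.mem_Icc.1 k1).1 k2 k3 ?_).2 k4
          intro h
          apply hn1
          rcases hs with rfl | rfl <;> omega
      exact le_trans (Finset.card_le_card this) (Finset.card_insert_le _ _)
    rw [abs_le]
    constructor
    · have : ((N X : ℕ) : ℝ) ≤ ((((Icc 1 X).filter fun n : ℕ => Squarefree n ∧
        Cl {3, 5} (KK s) n.primeFactors ∧ Q (s * n)).card : ℕ) : ℝ) + 1 := by exact_mod_cast e2
      linarith
    · have : ((((Icc 1 X).filter fun n : ℕ => Squarefree n ∧
        Cl {3, 5} (KK s) n.primeFactors ∧ Q (s * n)).card : ℕ) : ℝ) ≤ (N X : ℝ) + 1 := by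
        exact_mod_cast e1
      linarith
  have h5 : Tendsto (fun X => ((count (fun D => AdmD D ∧ 0 < s * D ∧ Q D) X : ℝ) - (N X : ℝ)) /
      (B X : ℝ)) atTop (nhds 0) := by
    refine squeeze_zero_norm (a := fun X => 1 / (B X : ℝ)) (fun X => ?_) ?_
    · rw [norm_div, Real.norm_eq_abs, Real.norm_eq_abs, abs_of_nonneg (show (0 : ℝ) ≤ (B X : ℝ) from Nat.cast_nonneg (B X))]
      exact div_le_div_of_nonneg_right (h4 X) (Nat.cast_nonneg _)
    · exact tendsto_const_nhds.div_atTop hBR
  have h6 := hD.add h5
  rw [add_zero] at h6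
  refine h6.congr fun X => ?_
  rw [h1 X, ← add_div]
  congr 1
  show (N X : ℝ) + _ = _
  ring

end Pool.Agent.Y17.X
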