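import Pool.Agent.Y17.X.Cnt

/-!
# The size of the class of discriminants
-/

set_option autoImplicit false

open Finset Filter

namespace Pool.Agent.Y17.X

open Pool.Agent.Y687.MQ (AdmD)
open Pool.Agent.Y703.CQ (Cl SS c2)

open Classical in
/-- lower bound for the size of the class -/
theorem low {s : ℤ} (hs : s = 1 ∨ s = -1) : ∃ (c : ℝ) (X₀ : ℕ), 0 < c ∧ ∀ X : ℕ, X₀ ≤ X →
    c * X * (Real.log X) ^ (-(5 / 8) : ℝ) ≤ (count (fun D => AdmD D ∧ 0 < s * D) X : ℝ) := by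
  obtain ⟨c, X₀, hc, h⟩ := Pool.Agent.Y302.CQ.t_LOW Pool.Agent.Y405.CQ.t_MER
    Pool.Agent.Y302.CQ.t_CHE {3, 5} (KK s) (ok_KK hs)
  refine ⟨c, X₀, hc, fun X hX => ?_⟩
  have h1 := h X hX
  have e : (-1 + Pool.Agent.Y703.CQ.dl {3, 5} : ℝ) = -(5 / 8) := by
    unfold Pool.Agent.Y703.CQ.dl
    rw [Finset.card_pair (by norm_num)]
    norm_num
  rw [e] at h1
  refine le_trans h1 (le_of_eq ?_)
  have e2 := Pool.Agent.Y514.CQ.card_eq {3, 5} (KK s) X (fun _ => True)
  rw [Finset.filter_true] at e2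
  have e3 := count_eq hs (fun _ => True) X
  simp only [and_true] at e2 e3
  rw [e3, e2]

open Classical in
/-- the class is infinite -/
theorem base_atTop {s : ℤ} (hs : s = 1 ∨ s = -1) :
    Tendsto (fun X => count (fun D => AdmD D ∧ 0 < s * D) X) atTop atTop := by
  have h := card_atTop hs
  refine h.congr fun X => ?_
  have e := count_eq hs (fun _ => True) X
  simp only [and_true] at e
  exact e.symm

/-- lower bound for the number of the elements with a property of positive proportion -/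
theorem low_of {A B : ℕ → ℕ} {x c : ℝ} (hx : 0 < x) (hc : 0 < c) (X₀ : ℕ) {g : ℕ → ℝ}
    (hB : ∀ X : ℕ, X₀ ≤ X → c * g X ≤ (B X : ℝ))
    (hBt : Tendsto B atTop atTop)
    (h : Tendsto (fun X => (A X : ℝ) / (B X : ℝ)) atTop (nhds x)) :
    ∃ (a : ℝ) (X₁ : ℕ), 0 < a ∧ ∀ X : ℕ, X₁ ≤ X → a * g X ≤ (A X : ℝ) := by
  have h1 : ∀ᶠ X in atTop, x / 2 < (A X : ℝ) / (B X : ℝ) := h.eventually_const_lt (by linarith)
  have h2 : ∀ᶠ X in atTop, 0 < B X := hBt.eventually_gt_atTop 0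
  obtain ⟨X₁, hX₁⟩ := eventually_atTop.1 (h1.and (h2.and (eventually_ge_atTop X₀)))
  refine ⟨x / 2 * c, X₁, by positivity, fun X hX => ?_⟩
  obtain ⟨k1, k2, k3⟩ := hX₁ X hX
  have k4 : (0 : ℝ) < B X := by exact_mod_cast k2
  have k5 : x / 2 * B X < A X := (lt_div_iff₀ k4).1 k1
  have k6 := hB X k3
  calc x / 2 * c * g X = x / 2 * (c * g X) := by ring
    _ ≤ x / 2 * B X := by
        refine mul_le_mul_of_nonneg_left k6 (by linarith)
    _ ≤ A X := k5.le

end Pool.Agent.Y17.X
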