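import Pool.Agent.Y17.X.Low
import Pool.Agent.Y17.X.TwoP
import Pool.Agent.Y687.MQ.Fin

/-!
# The criterion for the short models of the twists
-/

set_option autoImplicit false

open Finset Filter

namespace Pool.Agent.Y17.X

open Pool.Agent
open Pool.Agent.Y687.MQ (AdmD matD of_admD SP IP disc matD_eq matT_iff det_ind)

/-- `y² = x³ + 5805 D² x - 285714 D³` has finitely many rational points and `Ш[2] = 0` -/
def RZ (D : ℤ) : Prop :=
  Finite (Pool.Agent.Z702.sh (5805 * D ^ 2) (-285714 * D ^ 3)).toAffine.Point ∧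
    ∀ x : Pool.Agent.TH841.SH.D.Sha (Pool.Agent.Z702.sh (5805 * D ^ 2) (-285714 * D ^ 3)),
      x + x = 0 → x = 0

/-- the criterion -/
theorem rz_iff {D : ℤ} (h : AdmD D) : RZ D ↔ (matD D).det ≠ 0 := by
  classical
  obtain ⟨hP, hT, hC, hD⟩ := of_admD h
  have hP' : ∀ p ∈ SP D, Y17.N.Sp p := hP
  have hm : Y687.DD (IP D) = (Z700.pr (IP D) : ℤ) ∨ Y687.DD (IP D) = -(Z700.pr (IP D) : ℤ) := by
    rw [Z705.DD_eq]
    rcases Nat.even_or_odd ((IP D).filter fun q => ¬ q % 4 = 1).card with he | ho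
    · left; rw [he.neg_one_pow, one_mul]
    · right; rw [ho.neg_one_pow, neg_one_mul]
  have hdet : (matD D).det ≠ 0 ↔ Odd (Z700.Yd Z700.lres (Y687.N.xrZ (Y687.DD (IP D))) (SP D)) := by
    rw [matD_eq, matT_iff hP hT, det_ind hP hT hm]
  have hDD : (Z700.pr (SP D) : ℤ) * Y687.DD (IP D) = D := hD
  have h1 := Z704.equivS Z702.f_COC Z702.f_LOT Z702.f_COB Z702.f_TOR Z702.f_LQ Z702.f_LG
      Z702.f_LP Z702.f_LIN Z702.f_TRN Z705.f_SELA Z705.f_SELB (Z705.cnd hP' hT)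
  rw [hDD] at h1
  rw [hdet]
  exact h1.symm

end Pool.Agent.Y17.X
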